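import Pool.Agent.Helper83_RS2.Ep
import Pool.Agent.Helper80_RS2.Cnt

/-! # MP_ff6f12_co, squad RS2, module GON -/

set_option autoImplicit false

open SimpleGraph

namespace Pool.Agent.RS81.H83

open Pool.Agent.RS80 Pool.Agent.RS81

theorem pendL_conn {V : Type} {B : SimpleGraph V} (hB : B.Connected) (ℓ : V → ℕ) :
    (pendL B ℓ).Connected := by
  have h0 := hB.nonempty
  have key : ∀ x : V ⊕ Σ v, Fin (ℓ v), ∃ v, (pendL B ℓ).Reachable x (Sum.inl v) := by
    rintro (v | z)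
    · exact ⟨v, Reachable.refl _⟩
    · exact ⟨z.1, (show (pendL B ℓ).Adj (Sum.inr z) (Sum.inl z.1) from rfl).reachable⟩
  have key2 : ∀ u v : V, (pendL B ℓ).Reachable (Sum.inl u) (Sum.inl v) := by
    intro u v
    obtain ⟨w⟩ := hB.preconnected u v
    exact ⟨w.map (⟨Sum.inl, fun {a b} hab => hab⟩ : B →g pendL B ℓ)⟩
  have : Nonempty (V ⊕ Σ v, Fin (ℓ v)) := ⟨Sum.inl h0.some⟩
  refine ⟨fun x y => ?_⟩
  obtain ⟨u, hu⟩ := key x
  obtain ⟨v, hv⟩ := key y
  exact hu.trans ((key2 u v).trans hv.symm)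

theorem pendL_col {V : Type} {B : SimpleGraph V} (hc : B.Colorable 2) (ℓ : V → ℕ) :
    (pendL B ℓ).Colorable 2 := by
  obtain ⟨c⟩ := hc
  refine ⟨⟨Sum.elim (fun v => c v) (fun z => c z.1 + 1), ?_⟩⟩
  have h2 : ∀ a : Fin 2, a ≠ a + 1 := by decide
  rintro (u | z) (v | w) h
  · exact c.valid h
  · change u = w.1 at h
    subst h
    exact h2 _
  · change v = z.1 at h
    subst h
    exact (h2 _).symm
  · exact h.elim

/-- GON. -/
theorem gon (ktt : KttStmt) : GonStmt := by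
  intro V _ B ℓ hB hc d
  classical
  obtain ⟨H, hH⟩ : ∃ H, H = pendL B ℓ := ⟨_, rfl⟩
  rw [← hH]
  have hconn : H.Connected := by
    rw [hH]
    exact pendL_conn hB.2.1 ℓ
  have hle : B ⊑ H := by
    rw [hH]
    exact core_isContained B ℓ
  have hcol : H.Colorable 2 := by
    rw [hH]
    exact pendL_col hc ℓ
  obtain ⟨t, ht⟩ := ktt _ H hcol
  obtain ⟨n, hn⟩ := ep hB t d
  -- an `H`-free graph with the largest number of edges
  let P : Set (SimpleGraph (Fin n)) := {F | H.Free F}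
  have hPne : P.Nonempty := by
    refine ⟨⊥, ?_⟩
    rintro ⟨f⟩
    obtain ⟨g⟩ := hle
    obtain ⟨v⟩ := hB.2.1.nonempty
    obtain ⟨u, hu⟩ := hB.exists_adj v
    exact (f.toHom.map_rel (g.toHom.map_rel hu)).elim
  obtain ⟨E, hE, hmax⟩ := Set.exists_max_image P (fun F => F.edgeSet.ncard) (Set.toFinite P) hPne
  have hEK : (completeBipartiteGraph (Fin t) (Fin t)).Free E :=
    ht (Fin n) E ⟨E, E, sup_idem _, hE, hE⟩
  obtain ⟨F, hF1, hF2, hF3⟩ := hn n le_rfl E hEK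
  have hF4 : H.Free F := fun h => hF2 (hle.trans h)
  exact ⟨n, E ⊔ F, ⟨E, F, rfl, hE, hF4⟩, cnt H hconn n d E F (fun F' h => hmax F' h) hF1 hF3⟩

end Pool.Agent.RS81.H83
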