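import Pool.Agent.Helper80_RS2.Stmts

/-! # MP_ff6f12_co, squad RS2, module GON: the graph `E'` -/

set_option autoImplicit false

open SimpleGraph

namespace Pool.Agent.RS81.H83

open Pool.Agent.RS80 Pool.Agent.RS81

/-- Few vertices are joined to `x` by a short walk. -/
theorem ball_bound (D : ℕ) : ∀ k : ℕ, ∃ M : ℕ, ∀ (K : Type) [Finite K] (G : SimpleGraph K),
    (∀ x, (G.neighborSet x).ncard ≤ D) →
      ∀ x, {y | ∃ p : G.Walk x y, p.length ≤ k}.ncard ≤ M := by
  intro k
  induction k with
  | zero =>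
    refine ⟨1, ?_⟩
    intro K _ G hG x
    have : {y | ∃ p : G.Walk x y, p.length ≤ 0} ⊆ {x} := by
      rintro y ⟨p, hp⟩
      have := Walk.eq_of_length_eq_zero (Nat.le_zero.1 hp)
      exact this.symm
    exact (Set.ncard_le_ncard this).trans (by rw [Set.ncard_singleton])
  | succ k ih =>
    obtain ⟨M, hM⟩ := ih
    refine ⟨1 + D * M, ?_⟩
    intro K _ G hG x
    classical
    have := Fintype.ofFinite K
    have hsub : {y | ∃ p : G.Walk x y, p.length ≤ k + 1} ⊆
        ((insert x ((G.neighborSet x).toFinset.biUnion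
          fun z => ({y | ∃ p : G.Walk z y, p.length ≤ k} : Set K).toFinset) : Finset K) : Set K) := by
      rintro y ⟨p, hp⟩
      rw [Finset.mem_coe, Finset.mem_insert]
      cases p with
      | nil => exact Or.inl rfl
      | @cons _ z _ h p =>
        right
        rw [Finset.mem_biUnion]
        refine ⟨z, ?_, ?_⟩
        · rw [Set.mem_toFinset]
          exact h
        · rw [Set.mem_toFinset]
          refine ⟨p, ?_⟩
          rw [Walk.length_cons] at hp
          omega
    refine (Set.ncard_le_ncard hsub).trans ?_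
    rw [Set.ncard_coe_finset]
    refine (Finset.card_insert_le _ _).trans ?_
    rw [add_comm]
    refine Nat.add_le_add_left ?_ 1
    refine (Finset.card_biUnion_le_card_mul _ _ M ?_).trans ?_
    · intro z _
      rw [← Set.ncard_eq_toFinset_card']
      exact hM K G hG z
    · refine Nat.mul_le_mul_right _ ?_
      rw [← Set.ncard_eq_toFinset_card']
      exact hG x

/-- Walks in `B` avoiding `b`, mapped by a copy of `B` in `F ⊔ edge x y` with `f b ∈ {x, y}`. -/
theorem map_walk {V K : Type} [Finite V] {B : SimpleGraph V} (hB : TwoConn B)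
    {F : SimpleGraph K} {x y : K} (f : V → K) (hf : Function.Injective f)
    (hadj : ∀ u v, B.Adj u v → (F ⊔ edge x y).Adj (f u) (f v)) (b : V) (hb : f b = x ∨ f b = y)
    (u v : V) (hu : u ≠ b) (hv : v ≠ b) : ∃ p : F.Walk (f u) (f v), p.length ≤ Nat.card V := by
  classical
  have := Fintype.ofFinite V
  have hconn := hB.2.2 b
  obtain ⟨w⟩ := hconn.preconnected ⟨u, hu⟩ ⟨v, hv⟩
  have hpath := w.toPath
  let φ : B.induce {b}ᶜ →g F :=
    { toFun := fun z => f z.1
      map_rel' := by
        intro p q hpq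
        have h1 := hadj p.1 q.1 hpq
        rw [sup_adj, edge_adj] at h1
        rcases h1 with h1 | ⟨h1, -⟩
        · exact h1
        · have hp : f p.1 ≠ f b := fun h => p.2 (hf h)
          have hq : f q.1 ≠ f b := fun h => q.2 (hf h)
          rcases hb with hb | hb <;> rw [hb] at hp hq
          · rcases h1 with ⟨h2, -⟩ | ⟨-, h2⟩
            · exact absurd h2 hp
            · exact absurd h2 hq
          · rcases h1 with ⟨-, h2⟩ | ⟨h2, -⟩
            · exact absurd h2 hq
            · exact absurd h2 hp }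
  refine ⟨(Walk.map φ w.toPath.1 : F.Walk (φ ⟨u, hu⟩) (φ ⟨v, hv⟩)), ?_⟩
  rw [Walk.length_map]
  have h1 := (w.toPath.2).length_lt
  refine h1.le.trans ?_
  rw [Nat.card_eq_fintype_card]
  exact Fintype.card_le_of_injective (fun z : ({b}ᶜ : Set V) => z.1) Subtype.val_injective

/-- If adding `xy` closes a copy of `B` there is a short walk from `x` to `y`. -/
theorem short_walk {V K : Type} [Finite V] {B : SimpleGraph V} (hB : TwoConn B)
    {F : SimpleGraph K} {x y : K} (hF : B.Free F) (h : ¬ B.Free (F ⊔ edge x y)) :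
    ∃ p : F.Walk x y, p.length ≤ Nat.card V + Nat.card V := by
  classical
  have := Fintype.ofFinite V
  rw [SimpleGraph.Free, not_not] at h
  obtain ⟨f⟩ := h
  have hadj : ∀ u v, B.Adj u v → (F ⊔ edge x y).Adj (f u) (f v) := fun u v huv =>
    f.toHom.map_rel huv
  -- an edge `a b` of `B` mapped to `x y`
  have hex : ∃ a b, B.Adj a b ∧ f a = x ∧ f b = y := by
    by_contra hno
    apply hF
    refine ⟨⟨⟨f, ?_⟩, f.injective⟩⟩
    intro u v huv
    have h1 := hadj u v huv
    rw [sup_adj, edge_adj] at h1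
    rcases h1 with h1 | ⟨⟨h1, h2⟩ | ⟨h1, h2⟩, -⟩
    · exact h1
    · exact absurd ⟨u, v, huv, h1, h2⟩ hno
    · exact absurd ⟨v, u, huv.symm, h2, h1⟩ hno
  obtain ⟨a, b, hab, ha, hb⟩ := hex
  -- a third vertex
  obtain ⟨w, hw⟩ : ∃ w : V, w ∉ ({a, b} : Finset V) := by
    by_contra hno
    push Not at hno
    have h1 : Fintype.card V ≤ ({a, b} : Finset V).card := by
      rw [← Finset.card_univ]
      exact Finset.card_le_card fun w _ => hno w
    have h2 : ({a, b} : Finset V).card ≤ 2 := Finset.card_le_two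
    have h3 := hB.1
    rw [Nat.card_eq_fintype_card] at h3
    omega
  rw [Finset.mem_insert, Finset.mem_singleton, not_or] at hw
  obtain ⟨p, hp⟩ := map_walk hB f f.injective hadj b (Or.inr hb) a w hab.ne hw.2
  obtain ⟨q, hq⟩ := map_walk hB f f.injective hadj a (Or.inl ha) w b hw.1 hab.ne.symm
  refine ⟨((p.append q).copy ha hb), ?_⟩
  rw [Walk.length_copy, Walk.length_append]
  omega

theorem ktt_of {K : Type} {E : SimpleGraph K} {t : ℕ} (A C : Finset K) (hA : t ≤ A.card)
    (hC : t ≤ C.card) (h : ∀ a ∈ A, ∀ c ∈ C, E.Adj a c) :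
    ¬ (completeBipartiteGraph (Fin t) (Fin t)).Free E := by
  classical
  obtain ⟨e⟩ : Nonempty (Fin t ↪ A) :=
    Function.Embedding.nonempty_of_card_le (by rw [Fintype.card_fin, Fintype.card_coe]; exact hA)
  obtain ⟨g⟩ : Nonempty (Fin t ↪ C) :=
    Function.Embedding.nonempty_of_card_le (by rw [Fintype.card_fin, Fintype.card_coe]; exact hC)
  rw [SimpleGraph.Free, not_not]
  refine ⟨⟨⟨Sum.elim (fun i => (e i).1) (fun i => (g i).1), ?_⟩, ?_⟩⟩
  · rintro (i | i) (j | j) hij
    · simp [completeBipartiteGraph] at hij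
    · exact h _ (e i).2 _ (g j).2
    · exact (h _ (e j).2 _ (g i).2).symm
    · simp [completeBipartiteGraph] at hij
  · rintro (i | i) (j | j) hij
    · exact congrArg _ (e.injective (Subtype.ext hij))
    · exact absurd hij (h _ (e i).2 _ (g j).2).ne
    · exact absurd hij.symm (h _ (e j).2 _ (g i).2).ne
    · exact congrArg _ (g.injective (Subtype.ext hij))

/-- The graph `E'`. -/
theorem ep {V : Type} [Finite V] {B : SimpleGraph V} (hB : TwoConn B) (t d : ℕ) :
    ∃ N : ℕ, ∀ n, N ≤ n → ∀ E : SimpleGraph (Fin n),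
      (completeBipartiteGraph (Fin t) (Fin t)).Free E →
      ∃ F : SimpleGraph (Fin n), Disjoint E F ∧ B.Free F ∧ d * n < F.edgeSet.ncard := by
  classical
  obtain ⟨b, hb⟩ : ∃ b, b = Nat.card V + Nat.card V := ⟨_, rfl⟩
  have hb1 : 1 ≤ b := by
    have := hB.1
    omega
  obtain ⟨M, hM⟩ := ball_bound (2 * d + 2) b
  refine ⟨(t * M + t) * (d + 1) + 1, ?_⟩
  intro n hn E hE
  let P : Set (SimpleGraph (Fin n)) :=
    {F | Disjoint E F ∧ B.Free F ∧ ∀ x, (F.neighborSet x).ncard ≤ 2 * d + 2}
  have hPne : P.Nonempty := by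
    refine ⟨⊥, disjoint_bot_right, ?_, ?_⟩
    · rintro ⟨f⟩
      obtain ⟨v⟩ := hB.2.1.nonempty
      obtain ⟨u, hu⟩ := hB.exists_adj v
      exact (f.toHom.map_rel hu).elim
    · intro x
      have : (⊥ : SimpleGraph (Fin n)).neighborSet x = ∅ := by
        ext y; simp
      rw [this, Set.ncard_empty]
      exact Nat.zero_le _
  obtain ⟨F, hF, hmax⟩ := (Set.toFinite P).exists_maximal hPne
  obtain ⟨hF1, hF2, hF3⟩ := hF
  refine ⟨F, hF1, hF2, ?_⟩
  -- low degree vertices
  let L : Finset (Fin n) := Finset.univ.filter fun x => (F.neighborSet x).ncard < 2 * d + 2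
  let Ba : Fin n → Finset (Fin n) := fun x =>
    ({y | ∃ p : F.Walk x y, p.length ≤ b} : Set (Fin n)).toFinset
  have hBa : ∀ x, (Ba x).card ≤ M := by
    intro x
    have := hM (Fin n) F hF3 x
    rwa [Set.ncard_eq_toFinset_card'] at this
  have key : ∀ x ∈ L, ∀ y ∈ L, ¬ E.Adj x y → y ∈ Ba x := by
    intro x hx y hy hxy
    rw [Set.mem_toFinset]
    by_cases hxy' : x = y
    · subst hxy'
      exact ⟨Walk.nil, Nat.zero_le _⟩
    by_cases hF' : F.Adj x y
    · exact ⟨Walk.cons hF' Walk.nil, by simpa using hb1⟩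
    by_contra hno
    have h1 : B.Free (F ⊔ edge x y) := by
      refine by_contra fun h2 => ?_
      obtain ⟨p, hp⟩ := short_walk hB hF2 h2
      exact hno ⟨p, by rw [hb]; exact hp⟩
    have h2 : F ⊔ edge x y ∈ P := by
      refine ⟨?_, h1, ?_⟩
      · rw [disjoint_sup_right]
        refine ⟨hF1, ?_⟩
        rw [SimpleGraph.disjoint_left]
        intro u v huv
        rw [edge_adj]
        rintro ⟨⟨rfl, rfl⟩ | ⟨rfl, rfl⟩, -⟩
        · exact hxy huv
        · exact hxy huv.symm
      · intro z
        by_cases hz : z = x ∨ z = y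
        · obtain ⟨w, hw, hzw⟩ : ∃ w, (F.neighborSet z).ncard < 2 * d + 2 ∧
              (F ⊔ edge x y).neighborSet z ⊆ insert w (F.neighborSet z) := by
            rcases hz with rfl | rfl
            · refine ⟨y, (Finset.mem_filter.1 hx).2, ?_⟩
              intro w hw
              rw [SimpleGraph.mem_neighborSet, sup_adj, edge_adj] at hw
              rcases hw with hw | ⟨⟨-, hw⟩ | ⟨hw, -⟩, -⟩
              · exact Or.inr hw
              · exact Or.inl hw
              · exact absurd hw hxy'
            · refine ⟨x, (Finset.mem_filter.1 hy).2, ?_⟩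
              intro w hw
              rw [SimpleGraph.mem_neighborSet, sup_adj, edge_adj] at hw
              rcases hw with hw | ⟨⟨hw, -⟩ | ⟨-, hw⟩, -⟩
              · exact Or.inr hw
              · exact absurd hw.symm hxy'
              · exact Or.inl hw
          have := (Set.ncard_le_ncard hzw).trans (Set.ncard_insert_le _ _)
          omega
        · rw [not_or] at hz
          have : (F ⊔ edge x y).neighborSet z ⊆ F.neighborSet z := by
            intro w hw
            rw [SimpleGraph.mem_neighborSet, sup_adj, edge_adj] at hw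
            rcases hw with hw | ⟨⟨hw, -⟩ | ⟨hw, -⟩, -⟩
            · exact hw
            · exact absurd hw hz.1
            · exact absurd hw hz.2
          exact (Set.ncard_le_ncard this).trans (hF3 z)
    have h3 : F ⊔ edge x y ≤ F := hmax h2 le_sup_left
    exact hF' (h3 (Or.inr ((edge_adj _ _ _ _).2 ⟨Or.inl ⟨rfl, rfl⟩, hxy'⟩)))
  -- few low degree vertices
  have hL : L.card < t * M + t := by
    by_contra hge
    push Not at hge
    have htL : t ≤ L.card := by
      refine le_trans ?_ hge
      omega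
    obtain ⟨A, hAL, hA⟩ := Finset.exists_subset_card_eq htL
    let U : Finset (Fin n) := A.biUnion Ba
    have hU : U.card ≤ t * M := by
      refine (Finset.card_biUnion_le_card_mul _ _ M fun x _ => hBa x).trans ?_
      rw [hA]
    have hC : t ≤ (L \ U).card := by
      have := Finset.le_card_sdiff U L
      omega
    refine ktt_of A (L \ U) hA.ge hC ?_ hE
    intro a ha c hc
    by_contra hac
    rw [Finset.mem_sdiff] at hc
    exact hc.2 (Finset.mem_biUnion.2 ⟨a, ha, key a (hAL ha) c hc.1 hac⟩)
  -- counting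
  have hdeg : ∀ x, F.degree x = (F.neighborSet x).ncard := by
    intro x
    rw [← SimpleGraph.card_neighborSet_eq_degree, Set.ncard_eq_toFinset_card', Set.toFinset_card]
  have hsum := F.sum_degrees_eq_twice_card_edges
  have he : F.edgeFinset.card = F.edgeSet.ncard := by
    rw [Set.ncard_eq_toFinset_card']
    rfl
  have hlow : (n - (t * M + t)) * (2 * d + 2) ≤ ∑ x, F.degree x := by
    calc (n - (t * M + t)) * (2 * d + 2) ≤ (Finset.univ \ L).card * (2 * d + 2) := by
          refine Nat.mul_le_mul_right _ ?_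
          have := Finset.le_card_sdiff L (Finset.univ : Finset (Fin n))
          rw [Finset.card_univ, Fintype.card_fin] at this
          omega
      _ = ∑ x ∈ Finset.univ \ L, (2 * d + 2) := by rw [Finset.sum_const, smul_eq_mul]
      _ ≤ ∑ x ∈ Finset.univ \ L, F.degree x := by
          refine Finset.sum_le_sum fun x hx => ?_
          rw [Finset.mem_sdiff, Finset.mem_filter, not_and] at hx
          rw [hdeg]
          exact not_lt.1 (hx.2 (Finset.mem_univ _))
      _ ≤ ∑ x, F.degree x := Finset.sum_le_sum_of_subset (Finset.subset_univ _)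
  rw [hsum, he] at hlow
  have h5 : (n - (t * M + t)) * (d + 1) ≤ F.edgeSet.ncard := by
    have : (n - (t * M + t)) * (2 * d + 2) = 2 * ((n - (t * M + t)) * (d + 1)) := by ring
    omega
  refine lt_of_lt_of_le ?_ h5
  obtain ⟨c, hc⟩ : ∃ c, c = t * M + t := ⟨_, rfl⟩
  rw [← hc] at hn ⊢
  have hcn : c ≤ n := by
    have : c ≤ c * (d + 1) := Nat.le_mul_of_pos_right _ (Nat.succ_pos _)
    omega
  obtain ⟨m, rfl⟩ := Nat.exists_eq_add_of_le hcn
  rw [Nat.add_sub_cancel_left]
  have e1 : d * (c + m) = d * c + d * m := by ring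
  have e2 : m * (d + 1) = d * m + m := by ring
  have e3 : c * (d + 1) = d * c + c := by ring
  rw [e3] at hn
  rw [e1, e2]
  omega

end Pool.Agent.RS81.H83
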